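import Mathlib

/-! (R1) for SievedSets: an upper bound of Mertens type, `∑_{p ≤ Y} log p / (p - 1) ≤ 8 log Y`. -/

namespace Helper80.SV

open Finset

/-- One dyadic block: `∑_{2^n < p ≤ 2^(n+1)} log p / (p-1) ≤ 2 log 4`. -/
theorem block_le (n : ℕ) :
    ∑ p ∈ (Finset.Ioc (2 ^ n) (2 ^ (n + 1))).filter Nat.Prime, Real.log p / ((p : ℝ) - 1)
      ≤ 2 * Real.log 4 := by
  have h1 : ∑ p ∈ (Finset.Ioc (2 ^ n) (2 ^ (n + 1))).filter Nat.Prime,
      Real.log p / ((p : ℝ) - 1)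
      ≤ ∑ p ∈ (Finset.Ioc (2 ^ n) (2 ^ (n + 1))).filter Nat.Prime,
        Real.log p / (2 : ℝ) ^ n := by
    refine Finset.sum_le_sum fun p hp => ?_
    rw [Finset.mem_filter, Finset.mem_Ioc] at hp
    have hpos : (0 : ℝ) < 2 ^ n := by positivity
    have hle : (2 : ℝ) ^ n ≤ (p : ℝ) - 1 := by
      have : 2 ^ n + 1 ≤ p := hp.1.1
      have h2 : ((2 ^ n + 1 : ℕ) : ℝ) ≤ (p : ℝ) := by exact_mod_cast this
      push_cast at h2
      linarith
    have hlog : 0 ≤ Real.log p := Real.log_natCast_nonneg p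
    exact div_le_div_of_nonneg_left hlog hpos hle
  have h2 : ∑ p ∈ (Finset.Ioc (2 ^ n) (2 ^ (n + 1))).filter Nat.Prime, Real.log p
      ≤ Real.log 4 * (2 : ℝ) ^ (n + 1) := by
    have h3 := Chebyshev.theta_le_log4_mul_x (x := ((2 ^ (n + 1) : ℕ) : ℝ)) (by positivity)
    refine le_trans ?_ (le_of_le_of_eq h3 (by push_cast; ring))
    rw [Chebyshev.theta_eq_sum_Icc, Nat.floor_natCast]
    refine Finset.sum_le_sum_of_subset_of_nonneg ?_ ?_
    · intro p hp
      rw [Finset.mem_filter, Finset.mem_Ioc] at hp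
      rw [Finset.mem_filter, Finset.mem_Icc]
      exact ⟨⟨Nat.zero_le _, hp.1.2⟩, hp.2⟩
    · intro p _ _
      exact Real.log_natCast_nonneg p
  refine h1.trans ?_
  rw [← Finset.sum_div, div_le_iff₀ (by positivity)]
  refine h2.trans (le_of_eq ?_)
  ring

/-- The sum up to `2^n`. -/
theorem dyadic_le (n : ℕ) :
    ∑ p ∈ (Finset.Icc 1 (2 ^ n)).filter Nat.Prime, Real.log p / ((p : ℝ) - 1)
      ≤ 2 * Real.log 4 * n := by
  induction n with
  | zero =>
    simp [Finset.filter_singleton, Nat.not_prime_one]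
  | succ n ih =>
    have hsplit : (Finset.Icc 1 (2 ^ (n + 1))).filter Nat.Prime
        = (Finset.Icc 1 (2 ^ n)).filter Nat.Prime
          ∪ (Finset.Ioc (2 ^ n) (2 ^ (n + 1))).filter Nat.Prime := by
      rw [← Finset.filter_union]
      congr 1
      ext p
      simp only [Finset.mem_union, Finset.mem_Icc, Finset.mem_Ioc]
      have h1 : 1 ≤ 2 ^ n := Nat.one_le_two_pow
      have h2 : 2 ^ (n + 1) = 2 * 2 ^ n := by ring
      omega
    have hdisj : Disjoint ((Finset.Icc 1 (2 ^ n)).filter Nat.Prime)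
        ((Finset.Ioc (2 ^ n) (2 ^ (n + 1))).filter Nat.Prime) := by
      rw [Finset.disjoint_left]
      intro p hp hq
      rw [Finset.mem_filter, Finset.mem_Icc] at hp
      rw [Finset.mem_filter, Finset.mem_Ioc] at hq
      omega
    rw [hsplit, Finset.sum_union hdisj]
    have := block_le n
    push_cast
    linarith

/-- **(R1)** `∑_{p ≤ Y} log p / (p - 1) ≤ 8 log Y` for all `Y ≥ 2`. -/
theorem R1_explicit (Y : ℕ) (hY : 2 ≤ Y) :
    ∑ p ∈ (Finset.Icc 1 Y).filter Nat.Prime, Real.log p / ((p : ℝ) - 1)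
      ≤ 8 * Real.log Y := by
  set m := Nat.log 2 Y with hm
  have hm1 : 1 ≤ m := by
    rw [hm]
    exact Nat.log_pos (by norm_num) hY
  have hYlt : Y < 2 ^ (m + 1) := Nat.lt_pow_succ_log_self (by norm_num) Y
  have hmY : 2 ^ m ≤ Y := Nat.pow_log_le_self 2 (by omega)
  have h1 : ∑ p ∈ (Finset.Icc 1 Y).filter Nat.Prime, Real.log p / ((p : ℝ) - 1)
      ≤ ∑ p ∈ (Finset.Icc 1 (2 ^ (m + 1))).filter Nat.Prime, Real.log p / ((p : ℝ) - 1) := by
    refine Finset.sum_le_sum_of_subset_of_nonneg ?_ ?_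
    · intro p hp
      rw [Finset.mem_filter, Finset.mem_Icc] at hp ⊢
      exact ⟨⟨hp.1.1, by omega⟩, hp.2⟩
    · intro p hp _
      rw [Finset.mem_filter, Finset.mem_Icc] at hp
      have h2 : (1 : ℝ) ≤ p := by exact_mod_cast hp.1.1
      exact div_nonneg (Real.log_natCast_nonneg p) (by linarith)
  have h2 := dyadic_le (m + 1)
  have hlog2 : 0 < Real.log 2 := Real.log_pos (by norm_num)
  have h4 : Real.log 4 = 2 * Real.log 2 := by
    rw [show (4 : ℝ) = 2 ^ 2 by norm_num, Real.log_pow]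
    push_cast
    ring
  have h5 : (m : ℝ) * Real.log 2 ≤ Real.log Y := by
    rw [← Real.log_pow]
    apply Real.log_le_log (by positivity)
    exact_mod_cast hmY
  have h6 : ((m + 1 : ℕ) : ℝ) ≤ 2 * m := by
    have : (1 : ℝ) ≤ m := by exact_mod_cast hm1
    push_cast
    linarith
  calc _ ≤ 2 * Real.log 4 * ((m + 1 : ℕ) : ℝ) := h1.trans h2
    _ ≤ 2 * Real.log 4 * (2 * m) := by
        apply mul_le_mul_of_nonneg_left h6
        rw [h4]; positivity
    _ = 8 * (m * Real.log 2) := by rw [h4]; ring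
    _ ≤ 8 * Real.log Y := by linarith

/-- **(R1)** in the form asked for. -/
theorem R1 : ∃ C1 : ℝ, ∀ Y : ℕ, 2 ≤ Y →
    ∑ p ∈ (Finset.Icc 1 Y).filter Nat.Prime, Real.log p / ((p : ℝ) - 1)
      ≤ C1 * Real.log Y :=
  ⟨8, R1_explicit⟩

end Helper80.SV
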